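import Pool.Agent.W997.LN.Stm

/-!
# Layers of formulas give a circuit
-/

set_option autoImplicit false

namespace Pool.Agent.W762.LNLAY

open Pool.Agent.W997.LN
open Pool.Agent.W997.DB (Circuit Op)

/-- Rename the gates. -/
def mapOp {X P Q : Type} (f : P → Q) : Op X P → Op X Q
  | .lit z => .lit z
  | .not a => .not (f a)
  | .and a b => .and (f a) (f b)
  | .or a b => .or (f a) (f b)

theorem mapOp_eval {X P Q : Type} (f : P → Q) (o : Op X P) (y : X → Bool) (u : Q → Bool) :
    (mapOp f o).eval y u = o.eval y (fun p => u (f p)) := by
  cases o <;> rfl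

theorem mapOp_args {X P Q : Type} (f : P → Q) (o : Op X P) :
    (mapOp f o).args = o.args.map f := by
  cases o <;> rfl

theorem mapOp_lit {X P Q : Type} (f : P → Q) (o : Op X P) (z : X) (h : mapOp f o = .lit z) :
    o = .lit z := by
  cases o with
  | lit v => simp only [mapOp, Op.lit.injEq] at h; rw [h]
  | not a => simp [mapOp] at h
  | and a b => simp [mapOp] at h
  | or a b => simp [mapOp] at h

/-- A formula as a system of gates. -/
structure Gad {X : Type} (φ : Fml X) where
  P : Type
  [fin : Fintype P]
  op : P → Op X P
  lev : P → ℕ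
  r : P
  val : (X → Bool) → P → Bool
  card : Fintype.card P = φ.size
  lt : ∀ p, ∀ a ∈ (op p).args, lev a < lev p
  le : ∀ p, lev p ≤ φ.depth
  ev : ∀ y p, val y p = (op p).eval y (val y)
  rt : ∀ y, val y r = φ.eval y
  all : ∀ q : X → Prop, φ.All q → ∀ p z, op p = .lit z → q z

attribute [instance] Gad.fin

/-- The gadget of a binary gate. -/
theorem gad2 {X : Type} (φ a b : Fml X) (A : Gad a) (B : Gad b)
    (c : ∀ {P : Type}, P → P → Op X P)
    (f : Bool → Bool → Bool)
    (hc : ∀ {P : Type} (x x' : P) (y : X → Bool) (u : P → Bool),
      (c x x').eval y u = f (u x) (u x'))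
    (hargs : ∀ {P : Type} (x x' : P), (c x x').args = [x, x'])
    (hl : ∀ {P : Type} (x x' : P) (z : X), c x x' ≠ .lit z)
    (hs : φ.size = a.size + b.size + 1) (hd : φ.depth = max a.depth b.depth + 1)
    (he : ∀ y, φ.eval y = f (a.eval y) (b.eval y))
    (hall : ∀ q, φ.All q → a.All q ∧ b.All q) : Nonempty (Gad φ) := by
  refine ⟨{
    P := Option (A.P ⊕ B.P)
    op := fun p => match p with
      | none => c (some (Sum.inl A.r)) (some (Sum.inr B.r))
      | some (Sum.inl p) => mapOp (fun x => some (Sum.inl x)) (A.op p)
      | some (Sum.inr p) => mapOp (fun x => some (Sum.inr x)) (B.op p)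
    lev := fun p => match p with
      | none => φ.depth
      | some (Sum.inl p) => A.lev p
      | some (Sum.inr p) => B.lev p
    r := none
    val := fun y p => match p with
      | none => φ.eval y
      | some (Sum.inl p) => A.val y p
      | some (Sum.inr p) => B.val y p
    card := ?_
    lt := ?_
    le := ?_
    ev := ?_
    rt := ?_
    all := ?_ }⟩
  · rw [Fintype.card_option, Fintype.card_sum, A.card, B.card, hs]
  · intro p x hx
    rcases p with _ | p | p
    · simp only [hargs, List.mem_cons, List.not_mem_nil, or_false] at hx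
      have h1 := A.le A.r
      have h2 := B.le B.r
      rcases hx with rfl | rfl
      · simp only [hd]
        have := le_max_left a.depth b.depth
        omega
      · simp only [hd]
        have := le_max_right a.depth b.depth
        omega
    · simp only [mapOp_args, List.mem_map] at hx
      obtain ⟨x', hx', rfl⟩ := hx
      exact A.lt p x' hx'
    · simp only [mapOp_args, List.mem_map] at hx
      obtain ⟨x', hx', rfl⟩ := hx
      exact B.lt p x' hx'
  · intro p
    rcases p with _ | p | p
    · exact le_rfl
    · have h1 := A.le p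
      simp only [hd]
      have := le_max_left a.depth b.depth
      omega
    · have h2 := B.le p
      simp only [hd]
      have := le_max_right a.depth b.depth
      omega
  · intro y p
    rcases p with _ | p | p
    · simp only [hc, A.rt, B.rt, he]
    · simp only [mapOp_eval]
      exact A.ev y p
    · simp only [mapOp_eval]
      exact B.ev y p
  · intro y
    rfl
  · intro q hq p z hz
    rcases p with _ | p | p
    · exact absurd hz (hl _ _ _)
    · exact A.all q (hall q hq).1 p z (mapOp_lit _ _ _ hz)
    · exact B.all q (hall q hq).2 p z (mapOp_lit _ _ _ hz)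

theorem gad {X : Type} (φ : Fml X) : Nonempty (Gad φ) := by
  induction φ with
  | lit z =>
    refine ⟨{
      P := Unit
      op := fun _ => .lit z
      lev := fun _ => 0
      r := ()
      val := fun y _ => y z
      card := by simp [Fml.size]
      lt := by intro p a ha; simp [Op.args] at ha
      le := by intro p; exact Nat.zero_le _
      ev := by intro y p; rfl
      rt := by intro y; rfl
      all := ?_ }⟩
    intro q hq p z' hz
    simp only [Op.lit.injEq] at hz
    subst hz
    exact hq
  | not a ih =>
    obtain ⟨A⟩ := ih
    refine ⟨{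
      P := Option A.P
      op := fun p => match p with
        | none => .not (some A.r)
        | some p => mapOp (fun x => some x) (A.op p)
      lev := fun p => match p with
        | none => a.depth + 1
        | some p => A.lev p
      r := none
      val := fun y p => match p with
        | none => !a.eval y
        | some p => A.val y p
      card := by rw [Fintype.card_option, A.card]; rfl
      lt := ?_
      le := ?_
      ev := ?_
      rt := by intro y; rfl
      all := ?_ }⟩
    · intro p x hx
      rcases p with _ | p
      · simp only [Op.args, List.mem_cons, List.not_mem_nil, or_false] at hx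
        subst hx
        exact Nat.lt_succ_of_le (A.le A.r)
      · simp only [mapOp_args, List.mem_map] at hx
        obtain ⟨x', hx', rfl⟩ := hx
        exact A.lt p x' hx'
    · intro p
      rcases p with _ | p
      · exact le_rfl
      · exact (A.le p).trans (Nat.le_succ _)
    · intro y p
      rcases p with _ | p
      · simp only [Op.eval, A.rt]
      · simp only [mapOp_eval]
        exact A.ev y p
    · intro q hq p z hz
      rcases p with _ | p
      · simp at hz
      · exact A.all q hq p z (mapOp_lit _ _ _ hz)
  | and a b iha ihb =>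
    obtain ⟨A⟩ := iha
    obtain ⟨B⟩ := ihb
    exact gad2 (.and a b) a b A B (fun x x' => .and x x') (fun s t => s && t)
      (fun _ _ _ _ => rfl) (fun _ _ => rfl) (fun _ _ _ h => by simp at h) rfl rfl
      (fun _ => rfl) (fun _ h => h)
  | or a b iha ihb =>
    obtain ⟨A⟩ := iha
    obtain ⟨B⟩ := ihb
    exact gad2 (.or a b) a b A B (fun x x' => .or x x') (fun s t => s || t)
      (fun _ _ _ _ => rfl) (fun _ _ => rfl) (fun _ _ _ h => by simp at h) rfl rfl
      (fun _ => rfl) (fun _ h => h)

section Main

variable {V W : Type} (Φ : Option W → Fml (V ⊕ W)) (G : ∀ o, Gad (Φ o))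

/-- The label of a gate. -/
def cop (g : Σ o, (G o).P) : Op V (Σ o, (G o).P) :=
  match (G g.1).op g.2 with
  | .lit (Sum.inl v) => .lit v
  | .lit (Sum.inr w) => .or ⟨some w, (G (some w)).r⟩ ⟨some w, (G (some w)).r⟩
  | .not a => .not ⟨g.1, a⟩
  | .and a b => .and ⟨g.1, a⟩ ⟨g.1, b⟩
  | .or a b => .or ⟨g.1, a⟩ ⟨g.1, b⟩

theorem cop_lt (lay : Option W → ℕ) (d : ℕ) (hd : ∀ o, (Φ o).depth ≤ d)
    (hall : ∀ o, (Φ o).All (fun z => ∀ w', z = Sum.inr w' → lay (some w') < lay o))
    (g : Σ o, (G o).P) : ∀ a ∈ (cop Φ G g).args,
      lay a.1 * (d + 1) + (G a.1).lev a.2 < lay g.1 * (d + 1) + (G g.1).lev g.2 := by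
  intro a ha
  have hlt := (G g.1).lt g.2
  unfold cop at ha
  cases hop : (G g.1).op g.2 with
  | lit z =>
    rw [hop] at ha
    rcases z with v | w
    · simp [Op.args] at ha
    · simp only [Op.args, List.mem_cons, List.not_mem_nil, or_false, or_self] at ha
      subst ha
      simp only
      have h1 := (G g.1).all _ (hall g.1) g.2 _ hop w rfl
      have h2 := ((G (some w)).le (G (some w)).r).trans (hd (some w))
      have h3 : (lay (some w) + 1) * (d + 1) ≤ lay g.1 * (d + 1) := Nat.mul_le_mul_right _ h1
      rw [Nat.add_mul, one_mul] at h3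
      omega
  | not b =>
    rw [hop] at ha hlt
    simp only [Op.args, List.mem_cons, List.not_mem_nil, or_false] at ha
    subst ha
    have := hlt b (by simp [Op.args])
    simp only
    omega
  | and b c =>
    rw [hop] at ha hlt
    simp only [Op.args, List.mem_cons, List.not_mem_nil, or_false] at ha
    rcases ha with rfl | rfl
    · have := hlt b (by simp [Op.args])
      simp only
      omega
    · have := hlt c (by simp [Op.args])
      simp only
      omega
  | or b c =>
    rw [hop] at ha hlt
    simp only [Op.args, List.mem_cons, List.not_mem_nil, or_false] at ha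
    rcases ha with rfl | rfl
    · have := hlt b (by simp [Op.args])
      simp only
      omega
    · have := hlt c (by simp [Op.args])
      simp only
      omega

theorem cop_eval (y : V → Bool) (u : W → Bool)
    (hu : ∀ w, u w = (Φ (some w)).eval (Sum.elim y u)) (g : Σ o, (G o).P) :
    (G g.1).val (Sum.elim y u) g.2 =
      (cop Φ G g).eval y (fun g => (G g.1).val (Sum.elim y u) g.2) := by
  have hev := (G g.1).ev (Sum.elim y u) g.2
  rw [hev]
  unfold cop
  cases hop : (G g.1).op g.2 with
  | lit z =>
    rcases z with v | w
    · rfl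
    · simp only [Op.eval, Sum.elim_inr, Bool.or_self, (G (some w)).rt]
      exact hu w
  | not b => rfl
  | and b c => rfl
  | or b c => rfl

end Main

theorem main : Pool.Agent.W997.LN.S_LAY := by
  intro V W _ lay L d s φ ψ hφd hψd hφs hψs hlay hall
  let Φ : Option W → Fml (V ⊕ W) := fun o => match o with
    | none => ψ
    | some w => φ w
  let G : ∀ o, Gad (Φ o) := fun o => Classical.choice (gad (Φ o))
  let lay' : Option W → ℕ := fun o => match o with
    | none => L + 1
    | some w => lay w
  have hd : ∀ o, (Φ o).depth ≤ d := by
    intro o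
    rcases o with _ | w
    · exact hψd
    · exact hφd w
  have hs : ∀ o, (Φ o).size ≤ s := by
    intro o
    rcases o with _ | w
    · exact hψs
    · exact hφs w
  have hlay' : ∀ o, lay' o ≤ L + 1 := by
    intro o
    rcases o with _ | w
    · exact le_rfl
    · exact (hlay w).trans (Nat.le_succ _)
  have htriv : ∀ (θ : Fml (V ⊕ W)) (q : V ⊕ W → Prop), (∀ z, q z) → θ.All q := by
    intro θ q hq
    induction θ with
    | lit z => exact hq z
    | not a ih => exact ih
    | and a b iha ihb => exact ⟨iha, ihb⟩
    | or a b iha ihb => exact ⟨iha, ihb⟩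
  have hall' : ∀ o, (Φ o).All (fun z => ∀ w', z = Sum.inr w' → lay' (some w') < lay' o) := by
    intro o
    rcases o with _ | w
    · apply htriv
      intro z w' _
      exact Nat.lt_succ_of_le (hlay w')
    · exact hall w
  refine ⟨{
    Gate := Σ o, (G o).P
    op := cop Φ G
    level := fun g => lay' g.1 * (d + 1) + (G g.1).lev g.2
    level_lt := cop_lt Φ G lay' d hd hall'
    out := ⟨none, (G none).r⟩ }, ?_, ?_, ?_⟩
  · unfold Circuit.size
    change Fintype.card (Σ o, (G o).P) ≤ _
    rw [Fintype.card_sigma]
    calc ∑ o, Fintype.card (G o).P = ∑ o, (Φ o).size := Finset.sum_congr rfl (fun o _ => (G o).card)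
      _ ≤ ∑ _o : Option W, s := Finset.sum_le_sum (fun o _ => hs o)
      _ = (Fintype.card W + 1) * s := by
        rw [Finset.sum_const, Finset.card_univ, Fintype.card_option, smul_eq_mul]
  · unfold Circuit.depth
    apply Finset.sup_le
    intro g _
    simp only
    have h1 : lay' g.1 * (d + 1) ≤ (L + 1) * (d + 1) := Nat.mul_le_mul_right _ (hlay' g.1)
    have h2 := ((G g.1).le g.2).trans (hd g.1)
    have h3 : (L + 2) * (d + 1) = (L + 1) * (d + 1) + (d + 1) := by ring
    omega
  · intro y u hu
    refine ⟨fun g => (G g.1).val (Sum.elim y u) g.2, ?_, ?_⟩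
    · intro g
      exact cop_eval Φ G y u hu g
    · exact (G none).rt (Sum.elim y u)

end Pool.Agent.W762.LNLAY
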