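import Pool.Agent.W749.NM.Stm
import Pool.Agent.W85.SMRL

/-!
Linear algebra of a relative ray, adapted from `Pool.Agent.W85.SMRL.main`.
-/

set_option autoImplicit false

namespace Pool.Agent.W762.NMRLL

open Pool.Agent.W426.SM Pool.Agent.W749.NM Pool.Agent.W85.SMRL

theorem main : S_RLL := by
  intro n k A m e a F he hA hray hford
  classical
  obtain ⟨ha0, hFne, hface, hrayu⟩ := hray
  have heQ : (e : ℚ) ≠ 0 := by exact_mod_cast he.ne'
  have heR : (e : ℝ) ≠ 0 := by exact_mod_cast he.ne'
  obtain ⟨j₀, hj₀⟩ := hFne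
  have hj₀f : ∑ i, a i * m j₀ i = gord m a := hface j₀ hj₀
  let M : BF a F → Fin k → ℚ := fun b j =>
    Sum.elim (fun i => (A i.1 : ℚ) / e + m j i.1) (fun l => if j = l.1 then -1 else 0) b
  have hM : ∀ X : BF a F → ℚ, (∀ j, ∑ b, X b * M b j = 0) → ∀ b, X b = 0 := by
    intro X hX
    simp only [Fintype.sum_sum_type, M, Sum.elim_inl, Sum.elim_inr] at hX
    let u : Fin n → ℚ := fun i => if h : a i ≠ 0 then X (Sum.inl ⟨i, h⟩) else 0
    have hsub : ∀ g : Fin n → ℚ, ∑ i : {i : Fin n // a i ≠ 0}, X (Sum.inl i) * g i.1 =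
        ∑ i, u i * g i := by
      intro g
      have h1 : ∑ i ∈ Finset.univ.filter (fun i => a i ≠ 0), u i * g i =
          ∑ i : {i : Fin n // a i ≠ 0}, u i.1 * g i.1 :=
        Finset.sum_subtype (Finset.univ.filter (fun i => a i ≠ 0)) (by simp) (fun i => u i * g i)
      have h2 : ∑ i ∈ Finset.univ.filter (fun i => a i ≠ 0), u i * g i = ∑ i, u i * g i := by
        apply Finset.sum_subset (Finset.subset_univ _)
        intro i _ hi
        have : ¬ a i ≠ 0 := by simpa using hi
        simp only [u, dif_neg this, zero_mul]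
      rw [← h2, h1]
      refine Finset.sum_congr rfl (fun i _ => ?_)
      simp only [u]
      rw [dif_pos i.2]
    have hfj : ∀ j, j ∈ F → ∑ i, u i * ((A i : ℚ) / e + m j i) = 0 := by
      intro j hj
      have h1 := hX j
      rw [hsub (fun i => (A i : ℚ) / e + m j i)] at h1
      have h2 : ∑ l : {j : Fin k // j ∉ F}, X (Sum.inr l) *
          (if j = l.1 then (-1 : ℚ) else 0) = 0 := by
        refine Finset.sum_eq_zero (fun l _ => ?_)
        rw [if_neg, mul_zero]
        rintro rfl
        exact l.2 hj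
      rw [h2, add_zero] at h1
      exact h1
    have hconst : ∀ j, j ∈ F → ∑ i, u i * m j i = - ∑ i, u i * ((A i : ℚ) / e) := by
      intro j hj
      have h1 := hfj j hj
      simp only [mul_add, Finset.sum_add_distrib] at h1
      linarith
    obtain ⟨r, hr⟩ := hrayu u (fun i hi => by simp [u, hi])
      (fun j hj j' hj' => by rw [hconst j hj, hconst j' hj'])
    have hr0 : r = 0 := by
      have h1 := hfj j₀ hj₀
      have h2 : ∑ i, u i * ((A i : ℚ) / e + m j₀ i) = r / e * (ford A m e a : ℚ) := by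
        have h3 : (ford A m e a : ℚ) = ∑ i, (a i : ℚ) * A i + e * ∑ i, (a i : ℚ) * m j₀ i := by
          unfold ford
          rw [← hj₀f]
          push_cast
          ring
        rw [h3, Finset.mul_sum, ← Finset.sum_add_distrib, Finset.mul_sum]
        refine Finset.sum_congr rfl (fun i _ => ?_)
        rw [hr i]
        field_simp
      rw [h2] at h1
      have h4 : (ford A m e a : ℚ) ≠ 0 := by exact_mod_cast hford.ne'
      rcases mul_eq_zero.1 h1 with h5 | h5
      · rcases div_eq_zero_iff.1 h5 with h6 | h6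
        · exact h6
        · exact absurd h6 heQ
      · exact absurd h5 h4
    have hXl : ∀ i, X (Sum.inl i) = 0 := by
      intro i
      have h1 := hr i.1
      rw [hr0, zero_mul] at h1
      simp only [u] at h1
      rw [dif_pos i.2] at h1
      exact h1
    rintro (i | l)
    · exact hXl i
    · have h1 := hX l.1
      rw [Finset.sum_eq_zero (fun i _ => by rw [hXl i, zero_mul]), zero_add,
        Finset.sum_eq_single l] at h1
      · simpa using h1
      · intro l' _ hne
        rw [if_neg, mul_zero]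
        intro h
        exact hne (Subtype.ext h).symm
      · simp
  obtain ⟨v, base, w, hv, hbase, hw, hid⟩ := ratl M hM (Sum.elim (fun _ => -1) (fun _ => 0))
  let t₀ : Fin k → ℝ := fun j => (base j : ℝ) + Real.sqrt 2 * w j
  let Λ : Fin k → BF a F → ℝ := fun j b => (v b j : ℝ)
  have hmu : ∀ (i : {i : Fin n // a i ≠ 0}) (t : Fin k → ℝ),
      (∑ j, t j) / e * A i.1 + ∑ j, t j * m j i.1 =
        ∑ j, ((M (Sum.inl i) j : ℚ) : ℝ) * t j := by
    intro i t
    simp only [M, Sum.elim_inl]
    push_cast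
    rw [Finset.sum_div, Finset.sum_mul, ← Finset.sum_add_distrib]
    exact Finset.sum_congr rfl (fun j _ => by ring)
  have hla : ∀ (l : {j : Fin k // j ∉ F}) (t : Fin k → ℝ),
      ∑ j, ((M (Sum.inr l) j : ℚ) : ℝ) * t j = - t l.1 := by
    intro l t
    simp only [M, Sum.elim_inr]
    rw [Finset.sum_eq_single l.1]
    · simp
    · intro j _ hne
      simp [hne]
    · simp
  have ht₀ : ∀ b, ∑ j, ((M b j : ℚ) : ℝ) * t₀ j =
      ((Sum.elim (fun _ => -1) (fun _ => 0) b : ℚ) : ℝ) := by
    intro b
    have h1 : ∑ j, ((M b j : ℚ) : ℝ) * t₀ j =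
        ((∑ j, M b j * base j : ℚ) : ℝ) + Real.sqrt 2 * ((∑ j, M b j * w j : ℚ) : ℝ) := by
      push_cast
      rw [Finset.mul_sum, ← Finset.sum_add_distrib]
      exact Finset.sum_congr rfl (fun j _ => by simp only [t₀]; ring)
    rw [h1, hbase b, hw b]
    simp
  have ht0mu : ∀ i (h : a i ≠ 0), (∑ j, t₀ j) / e * A i + ∑ j, t₀ j * m j i = -1 := by
    intro i h
    rw [hmu ⟨i, h⟩ t₀, ht₀]
    simp
  have ht0l : ∀ j, j ∉ F → t₀ j = 0 := by
    intro j h
    have h1 := ht₀ (Sum.inr ⟨j, h⟩)
    rw [hla] at h1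
    simp only [Sum.elim_inr, Rat.cast_zero, neg_eq_zero] at h1
    exact h1
  have hΛ : ∀ b b', ∑ j, ((M b' j : ℚ) : ℝ) * Λ j b = if b' = b then 1 else 0 := by
    intro b b'
    have h1 : ((∑ j, M b' j * v b j : ℚ) : ℝ) = ((if b' = b then 1 else 0 : ℚ) : ℝ) := by
      rw [hv b b']
    have h2 : ((if b' = b then 1 else 0 : ℚ) : ℝ) = if b' = b then 1 else 0 := by
      split_ifs <;> simp
    rw [h2, Rat.cast_sum] at h1
    simp only [Rat.cast_mul] at h1
    exact h1
  have hw0 : ∀ j, (∃ r : ℕ, t₀ j = -((r : ℝ) + 1)) → w j = 0 := by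
    rintro j ⟨r, hr⟩
    by_contra hne
    have h1 : Irrational ((base j : ℝ) + Real.sqrt 2 * w j) := by
      have h2 : Irrational (Real.sqrt 2 * (w j : ℝ)) :=
        irrational_sqrt_two.mul_ratCast hne
      exact h2.ratCast_add (base j)
    apply h1
    refine ⟨-((r : ℚ) + 1), ?_⟩
    rw [← show t₀ j = (base j : ℝ) + Real.sqrt 2 * w j from rfl, hr]
    push_cast
    ring
  have hidR : ∀ j, w j = 0 → ∀ j', ∑ b, Λ j b * ((M b j' : ℚ) : ℝ) = if j = j' then 1 else 0 := by
    intro j hj j'
    have h1 : ((∑ b, v b j * M b j' : ℚ) : ℝ) = ((if j = j' then 1 else 0 : ℚ) : ℝ) := by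
      rw [hid j hj j']
    have h2 : ((if j = j' then 1 else 0 : ℚ) : ℝ) = if j = j' then 1 else 0 := by
      split_ifs <;> simp
    rw [h2, Rat.cast_sum] at h1
    simp only [Rat.cast_mul] at h1
    exact h1
  rcases gordan (J := {j : Fin k // j ∈ F ∧ ∃ r : ℕ, t₀ j = -((r : ℝ) + 1)})
    (fun j b => Λ j.1 b) with ⟨p, hp, hpJ⟩ | ⟨y, hy, hy0, hyX⟩
  · right
    refine ⟨t₀, Λ, p, hp, ht0l, ?_, ht0mu, ?_, ?_⟩
    · intro j h b
      have h1 := hΛ b (Sum.inr ⟨j, h⟩)
      rw [hla] at h1
      have h2 : (if b = Sum.inr ⟨j, h⟩ then (-1 : ℝ) else 0) =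
          - (if (Sum.inr ⟨j, h⟩ : BF a F) = b then (1 : ℝ) else 0) := by
        by_cases hb : b = Sum.inr ⟨j, h⟩
        · rw [if_pos hb, if_pos hb.symm]
        · rw [if_neg hb, if_neg (fun h => hb h.symm), neg_zero]
      rw [h2, ← h1, neg_neg]
    · intro i h b
      rw [hmu ⟨i, h⟩ (fun j => Λ j b), hΛ]
      simp only [eq_comm]
    · intro j hj hr
      refine ⟨hpJ ⟨j, hj, hr⟩, fun ω => ?_⟩
      have h1 : ∑ i : {i : Fin n // a i ≠ 0}, Λ j (Sum.inl i) *
              ((∑ j', ω j') / e * A i + ∑ j', ω j' * m j' i) +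
            ∑ l : {j : Fin k // j ∉ F}, Λ j (Sum.inr l) * (- ω l) =
          ∑ b, Λ j b * ∑ j', ((M b j' : ℚ) : ℝ) * ω j' := by
        rw [Fintype.sum_sum_type]
        congr 1
        · exact Finset.sum_congr rfl (fun i _ => by rw [hmu])
        · exact Finset.sum_congr rfl (fun l _ => by rw [hla])
      rw [h1]
      simp only [Finset.mul_sum]
      rw [Finset.sum_comm]
      have h2 : ∀ j', ∑ b, Λ j b * (((M b j' : ℚ) : ℝ) * ω j') =
          (if j = j' then 1 else 0) * ω j' := by
        intro j'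
        rw [← hidR j (hw0 j hr) j', Finset.sum_mul]
        exact Finset.sum_congr rfl (fun b _ => by ring)
      simp only [h2]
      simp
  · left
    have hkey : ∀ j', j' ∈ F →
        ∑ i : {i : Fin n // a i ≠ 0}, (∑ j, y j * Λ j.1 (Sum.inl i)) *
          ((M (Sum.inl i) j' : ℚ) : ℝ) = ∑ j, y j * (if j.1 = j' then 1 else 0) := by
      intro j' hj'
      have h1 : ∑ j, y j * (if j.1 = j' then (1 : ℝ) else 0) =
          ∑ b, (∑ j, y j * Λ j.1 b) * ((M b j' : ℚ) : ℝ) := by
        simp only [Finset.sum_mul]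
        rw [Finset.sum_comm]
        refine Finset.sum_congr rfl (fun j _ => ?_)
        rw [← hidR j.1 (hw0 j.1 j.2.2) j', Finset.mul_sum]
        exact Finset.sum_congr rfl (fun b _ => by ring)
      rw [h1, Fintype.sum_sum_type]
      have h2 : ∑ l : {j : Fin k // j ∉ F}, (∑ j, y j * Λ j.1 (Sum.inr l)) *
          ((M (Sum.inr l) j' : ℚ) : ℝ) = 0 := by
        refine Finset.sum_eq_zero (fun l _ => ?_)
        have h3 : M (Sum.inr l) j' = 0 := by
          simp only [M, Sum.elim_inr]
          rw [if_neg]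
          rintro rfl
          exact l.2 hj'
        rw [h3]
        simp
      rw [h2, add_zero]
    have hi0 : ∃ i : {i : Fin n // a i ≠ 0}, ∑ j, y j * Λ j.1 (Sum.inl i) ≠ 0 := by
      by_contra hcon
      push Not at hcon
      obtain ⟨j, hj⟩ := hy0
      have h1 := hkey j.1 j.2.1
      rw [Finset.sum_eq_zero (fun i _ => by rw [hcon i, zero_mul]),
        Finset.sum_eq_single j] at h1
      · simp at h1
        exact hj h1.symm
      · intro j'' _ hne
        rw [if_neg, mul_zero]
        intro h
        exact hne (Subtype.ext h)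
      · simp
    obtain ⟨i₀, hi₀⟩ := hi0
    by_cases hall : ∀ j, j ∈ F → ∃ r : ℕ, t₀ j = -((r : ℝ) + 1)
    · choose r hr using hall
      let c : Fin k → ℕ := fun j => if h : j ∈ F then r j h + 1 else 0
      have hc : ∀ j, t₀ j = -(c j : ℝ) := by
        intro j
        by_cases h : j ∈ F
        · simp only [c]
          rw [dif_pos h, hr j h]
          push_cast
          ring
        · simp only [c]
          rw [dif_neg h, ht0l j h]
          simp
      have hnat : ∀ i, a i ≠ 0 → (∑ j, c j) * A i + e * ∑ j, c j * m j i = e := by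
        intro i h
        have h1 := ht0mu i h
        simp only [hc, Finset.sum_neg_distrib, neg_mul] at h1
        have h2 : ((∑ j, (c j : ℝ)) * A i + e * ∑ j, (c j : ℝ) * m j i) = e := by
          have h3 : (∑ j, (c j : ℝ)) / e * A i + ∑ j, (c j : ℝ) * m j i = 1 := by
            have h4 : -(∑ j, (c j : ℝ)) / e * A i = -((∑ j, (c j : ℝ)) / e * A i) := by ring
            rw [h4] at h1
            linarith
          have h5 : ((∑ j, (c j : ℝ)) * A i + e * ∑ j, (c j : ℝ) * m j i) =
              e * ((∑ j, (c j : ℝ)) / e * A i + ∑ j, (c j : ℝ) * m j i) := by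
            field_simp
          rw [h5, h3, mul_one]
        exact_mod_cast h2
      have hApos : A i₀.1 ≠ 0 := by
        intro hA0
        have h1 := hnat i₀.1 i₀.2
        rw [hA0, mul_zero, zero_add] at h1
        have h2 : ∑ j, c j * m j i₀.1 = 1 := by
          have h3 : e * ∑ j, c j * m j i₀.1 = e * 1 := by rw [h1, mul_one]
          exact Nat.eq_of_mul_eq_mul_left he h3
        obtain ⟨j, hj⟩ := exists_one c (fun j => m j i₀.1) h2
        rcases hA i₀.1 with h | h
        · exact h hA0
        · exact h j hj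
      have hC1 : 1 ≤ ∑ j, c j := by
        have h1 : c j₀ ≤ ∑ j, c j :=
          Finset.single_le_sum (f := c) (fun _ _ => Nat.zero_le _) (Finset.mem_univ j₀)
        have h2 : 1 ≤ c j₀ := by
          simp only [c]
          rw [dif_pos hj₀]
          omega
        omega
      have hCe : ∑ j, c j ≤ e := by
        have h1 := hnat i₀.1 i₀.2
        have h2 : (∑ j, c j) * 1 ≤ (∑ j, c j) * A i₀.1 :=
          Nat.mul_le_mul_left _ (Nat.one_le_iff_ne_zero.2 hApos)
        omega
      have hfin : (∑ j, c j) * ford A m e a = (∑ i, a i) * e := by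
        have h1 : ∑ i, a i * ((∑ j, c j) * A i + e * ∑ j, c j * m j i) = (∑ i, a i) * e := by
          rw [Finset.sum_mul]
          refine Finset.sum_congr rfl (fun i _ => ?_)
          by_cases h : a i = 0
          · rw [h]; simp
          · rw [hnat i h]
        rw [← h1]
        have h2 : ∀ j, c j * ∑ i, a i * m j i = c j * gord m a := by
          intro j
          by_cases h : j ∈ F
          · have h' : ∑ i, a i * m j i = gord m a := hface j h
            rw [h']
          · simp only [c]
            rw [dif_neg h, zero_mul, zero_mul]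
        have h3 : ∑ i, a i * ((∑ j, c j) * A i + e * ∑ j, c j * m j i) =
            (∑ j, c j) * ∑ i, a i * A i + e * ∑ j, c j * ∑ i, a i * m j i := by
          have h4 : ∑ j, c j * ∑ i, a i * m j i = ∑ i, a i * ∑ j, c j * m j i := by
            simp only [Finset.mul_sum]
            rw [Finset.sum_comm]
            exact Finset.sum_congr rfl (fun i _ => Finset.sum_congr rfl (fun j _ => by ring))
          rw [h4, Finset.mul_sum, Finset.mul_sum, ← Finset.sum_add_distrib]
          exact Finset.sum_congr rfl (fun i _ => by ring)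
        rw [h3]
        simp only [h2]
        rw [← Finset.sum_mul]
        unfold ford
        ring
      have hz : ∑ j, c j * m j i₀.1 = 0 := by
        by_contra hne
        have h1 := hnat i₀.1 i₀.2
        have h2 : (∑ j, c j) * 1 ≤ (∑ j, c j) * A i₀.1 :=
          Nat.mul_le_mul_left _ (Nat.one_le_iff_ne_zero.2 hApos)
        have h3 : e * 1 ≤ e * ∑ j, c j * m j i₀.1 :=
          Nat.mul_le_mul_left _ (Nat.one_le_iff_ne_zero.2 hne)
        omega
      have hCA : (∑ j, c j) * A i₀.1 = e := by
        have h1 := hnat i₀.1 i₀.2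
        rw [hz, mul_zero, add_zero] at h1
        exact h1
      refine ⟨i₀.1, hApos, ⟨j₀, ?_⟩, ?_⟩
      · have h1 := (Finset.sum_eq_zero_iff.1 hz) j₀ (Finset.mem_univ _)
        rcases Nat.mul_eq_zero.1 h1 with h2 | h2
        · exfalso
          simp only [c] at h2
          rw [dif_pos hj₀] at h2
          omega
        · exact h2
      · have h1 : (∑ j, c j) * ford A m e a = (∑ j, c j) * ((∑ i, a i) * A i₀.1) := by
          rw [hfin]
          conv_lhs => rw [← hCA]
          ring
        exact (Nat.eq_of_mul_eq_mul_left hC1 h1).symm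
    · exfalso
      push Not at hall
      have hzero : ∀ j₁, j₁ ∈ F → (¬ ∃ r : ℕ, t₀ j₁ = -((r : ℝ) + 1)) →
          A i₀.1 = 0 ∧ m j₁ i₀.1 = 0 := by
        intro j₁ hf hr
        have h1 := hkey j₁ hf
        have h2 : ∑ j : {j : Fin k // j ∈ F ∧ ∃ r : ℕ, t₀ j = -((r : ℝ) + 1)},
            y j * (if j.1 = j₁ then (1 : ℝ) else 0) = 0 := by
          refine Finset.sum_eq_zero (fun j _ => ?_)
          rw [if_neg, mul_zero]
          intro h
          exact hr (h ▸ j.2.2)
        rw [h2] at h1
        have h3 : ∀ i : {i : Fin n // a i ≠ 0}, 0 ≤ ((M (Sum.inl i) j₁ : ℚ) : ℝ) := by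
          intro i
          simp only [M, Sum.elim_inl]
          push_cast
          positivity
        have h4 := (Finset.sum_eq_zero_iff_of_nonneg
          (fun i _ => mul_nonneg (hyX (Sum.inl i)) (h3 i))).1 h1 i₀ (Finset.mem_univ _)
        rcases mul_eq_zero.1 h4 with h5 | h5
        · exact absurd h5 hi₀
        · simp only [M, Sum.elim_inl] at h5
          push_cast at h5
          have h6 : 0 ≤ (A i₀.1 : ℝ) / e := by positivity
          have h7 : 0 ≤ (m j₁ i₀.1 : ℝ) := by positivity
          have h8 : (A i₀.1 : ℝ) / e = 0 := by linarith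
          have h9 : (m j₁ i₀.1 : ℝ) = 0 := by linarith
          refine ⟨?_, by exact_mod_cast h9⟩
          rcases div_eq_zero_iff.1 h8 with h10 | h10
          · exact_mod_cast h10
          · exact absurd h10 heR
      obtain ⟨j₁, hj₁, hj₁'⟩ := hall
      have hA0 : A i₀.1 = 0 := (hzero j₁ hj₁ (by push Not; exact hj₁')).1
      let c : Fin k → ℕ := fun j =>
        if h : j ∈ F ∧ ∃ r : ℕ, t₀ j = -((r : ℝ) + 1) then h.2.choose + 1 else 0
      have hc : ∀ j, t₀ j * m j i₀.1 = -((c j * m j i₀.1 : ℕ) : ℝ) := by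
        intro j
        by_cases h : j ∈ F ∧ ∃ r : ℕ, t₀ j = -((r : ℝ) + 1)
        · simp only [c]
          rw [dif_pos h]
          have h1 := h.2.choose_spec
          conv_lhs => rw [h1]
          push_cast
          ring
        · simp only [c]
          rw [dif_neg h]
          by_cases hf : j ∈ F
          · have h2 : ¬ ∃ r : ℕ, t₀ j = -((r : ℝ) + 1) := fun hr => h ⟨hf, hr⟩
            rw [(hzero j hf h2).2]
            simp
          · rw [ht0l j hf]
            simp
      have h1 := ht0mu i₀.1 i₀.2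
      rw [hA0] at h1
      simp only [hc, Finset.sum_neg_distrib] at h1
      have h2 : ∑ j, c j * m j i₀.1 = 1 := by
        have h3 : ((∑ j, c j * m j i₀.1 : ℕ) : ℝ) = 1 := by
          push_cast at h1 ⊢
          linarith
        exact_mod_cast h3
      obtain ⟨j, hj⟩ := exists_one c (fun j => m j i₀.1) h2
      rcases hA i₀.1 with h | h
      · exact h hA0
      · exact h j hj

end Pool.Agent.W762.NMRLL
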