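import Pool.Agent.W70.HR.Stm

/-!
# Project HR: pointwise bound of the Selberg type functions
-/

set_option autoImplicit false

open Finset Filter

namespace Pool.Agent.W762.HRPt

open Pool.Agent.H361R2.PP Pool.Agent.W70.HR Pool.Agent.H410R2

/-- few large primes divide `n + a` -/
theorem few_primes {δ : ℝ} (hδ : 0 < δ) {X N z : ℕ} (hX : 2 ≤ X) {P : Finset ℕ}
    (hP : ∀ p ∈ P, p.Prime ∧ z ≤ p) (hz : (X : ℝ) ^ (δ / 2) ≤ z) (hN0 : 0 < N)
    (hN : (N : ℝ) ≤ (X : ℝ) ^ (2 : ℝ)) :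
    (P.filter (fun p => p ∣ N)).card ≤ ⌊4 / δ⌋₊ := by
  have hX1 : (1 : ℝ) < X := by exact_mod_cast (by omega : 1 < X)
  have hX0 : (0 : ℝ) < X := by linarith
  have h1 : ∏ p ∈ P.filter (fun p => p ∣ N), p ∣ N := by
    apply Finset.prod_primes_dvd
    · intro p hp
      exact (hP p (Finset.mem_filter.1 hp).1).1.prime
    · intro p hp
      exact (Finset.mem_filter.1 hp).2
  have h2 : ∏ p ∈ P.filter (fun p => p ∣ N), p ≤ N := Nat.le_of_dvd hN0 h1
  have h3 : (((X : ℝ) ^ (δ / 2)) ^ (P.filter (fun p => p ∣ N)).card) ≤ (N : ℝ) := by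
    calc ((X : ℝ) ^ (δ / 2)) ^ (P.filter (fun p => p ∣ N)).card
        = ∏ p ∈ P.filter (fun p => p ∣ N), (X : ℝ) ^ (δ / 2) := by rw [Finset.prod_const]
      _ ≤ ∏ p ∈ P.filter (fun p => p ∣ N), (p : ℝ) := by
        apply Finset.prod_le_prod
        · intro p _
          positivity
        · intro p hp
          refine hz.trans ?_
          exact_mod_cast (hP p (Finset.mem_filter.1 hp).1).2
      _ ≤ N := by
        have h5 : ((∏ p ∈ P.filter (fun p => p ∣ N), p : ℕ) : ℝ) ≤ N := Nat.cast_le.2 h2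
        rwa [Nat.cast_prod] at h5
  have h4 : (X : ℝ) ^ ((δ / 2) * (P.filter (fun p => p ∣ N)).card) ≤ (X : ℝ) ^ (2 : ℝ) := by
    rw [Real.rpow_mul hX0.le, Real.rpow_natCast]
    exact h3.trans hN
  rw [Real.rpow_le_rpow_left_iff hX1] at h4
  apply Nat.le_floor
  rw [le_div_iff₀ hδ]
  linarith


theorem fs_le {P : Finset ℕ} (hP : ∀ p ∈ P, p.Prime) {S : Finset (Finset ℕ)}
    (hS : ∀ R ∈ S, R ⊆ P) (a n : ℕ) :
    |FS S a n| ≤ 2 ^ (P.filter (fun p => p ∣ n + a)).card *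
      ∏ p ∈ P, (1 + (1 : ℝ) / ((p : ℝ) - 1)) := by
  classical
  have hp1 : ∀ p ∈ P, (0 : ℝ) < (p : ℝ) - 1 := by
    intro p hp
    have h1 : (1 : ℝ) < p := by exact_mod_cast (hP p hp).one_lt
    linarith
  set F : ℕ → ℝ := fun p => 1 / ((p : ℝ) - 1) * |(if p ∣ n + a then 1 - (p : ℝ) else 1)| with hF
  have hF0 : ∀ p ∈ P, 0 ≤ F p := by
    intro p hp
    have := hp1 p hp
    rw [hF]
    positivity
  have h1 : |FS S a n| ≤ ∑ R ∈ S, ∏ p ∈ R, F p := by
    unfold FS
    refine (Finset.abs_sum_le_sum_abs _ _).trans (Finset.sum_le_sum fun R hR => ?_)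
    rw [abs_mul, Finset.abs_prod]
    unfold AC.wt
    rw [hF, Finset.prod_mul_distrib]
    apply le_of_eq
    congr 1
    rw [Finset.abs_prod]
    refine Finset.prod_congr rfl fun p hp => ?_
    have := hp1 p (hS R hR hp)
    exact abs_of_nonneg (by positivity)
  have h2 : ∑ R ∈ S, ∏ p ∈ R, F p ≤ ∑ R ∈ P.powerset, ∏ p ∈ R, F p := by
    refine Finset.sum_le_sum_of_subset_of_nonneg
      (fun R hR => Finset.mem_powerset.2 (hS R hR)) fun R hR _ => ?_
    exact Finset.prod_nonneg fun p hp => hF0 p (Finset.mem_powerset.1 hR hp)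
  have h3 : ∑ R ∈ P.powerset, ∏ p ∈ R, F p = ∏ p ∈ P, (1 + F p) := by
    rw [Finset.prod_one_add]
  have h4 : ∏ p ∈ P, (1 + F p) ≤
      ∏ p ∈ P, ((if p ∣ n + a then (2 : ℝ) else 1) * (1 + (1 : ℝ) / ((p : ℝ) - 1))) := by
    refine Finset.prod_le_prod (fun p hp => ?_) fun p hp => ?_
    · have := hF0 p hp
      linarith
    · have h5 := hp1 p hp
      have h6 : 0 ≤ 1 / ((p : ℝ) - 1) := by positivity
      rw [hF]
      by_cases hd : p ∣ n + a
      · simp only [if_pos hd]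
        have h7 : |1 - (p : ℝ)| = (p : ℝ) - 1 := by
          rw [abs_sub_comm]
          exact abs_of_pos h5
        rw [h7, one_div_mul_cancel h5.ne']
        linarith
      · simp only [if_neg hd, abs_one, mul_one, one_mul]
        exact le_rfl
  rw [Finset.prod_mul_distrib, Finset.prod_ite] at h4
  simp only [Finset.prod_const, one_pow, mul_one] at h4
  rw [h3] at h2
  exact h1.trans (h2.trans h4)

theorem pt (hG : Gbd) (hW : Wtx) : S_PT := by
  intro Λ δ hΛ hδ hδ8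
  obtain ⟨C, hC, hG⟩ := hG 1
  obtain ⟨X₁, hX₁⟩ := hG δ hδ hδ8
  obtain ⟨X₂, hX₂⟩ := hW.2 δ hδ (by linarith)
  have hev : ∀ᶠ X : ℕ in atTop, Λ * Real.log X ≤ X := by
    have h1 : Tendsto (fun x : ℝ => Real.log x / x) atTop (nhds 0) := by
      have := Real.isLittleO_log_id_atTop.tendsto_div_nhds_zero
      exact this
    have h2 : ∀ᶠ x : ℝ in atTop, Real.log x / x < 1 / Λ :=
      h1.eventually (gt_mem_nhds (by positivity))
    have h3 := tendsto_natCast_atTop_atTop (R := ℝ) |>.eventually h2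
    filter_upwards [h3, eventually_ge_atTop 1] with X hX hX1
    have hX0 : (0 : ℝ) < X := by exact_mod_cast hX1
    rw [div_lt_iff₀ hX0] at hX
    have h4 : Λ * Real.log X ≤ Λ * (1 / Λ * X) := mul_le_mul_of_nonneg_left hX.le hΛ.le
    refine h4.trans (le_of_eq ?_)
    field_simp
  obtain ⟨X₃, hX₃⟩ := eventually_atTop.1 hev
  refine ⟨2 ^ ⌊4 / δ⌋₊ * (C / δ) ^ C, ?_, max (max X₁ X₂) (max X₃ 16), ?_⟩
  · have : (0 : ℝ) < C := by exact_mod_cast hC
    positivity
  intro X hX b n a hn ha haΛ S hS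
  have hX1 : X₁ ≤ X := le_trans (le_trans (le_max_left _ _) (le_max_left _ _)) hX
  have hX2 : X₂ ≤ X := le_trans (le_trans (le_max_right _ _) (le_max_left _ _)) hX
  have hX3 : X₃ ≤ X := le_trans (le_trans (le_max_left _ _) (le_max_right _ _)) hX
  have hX16 : 16 ≤ X := le_trans (le_trans (le_max_right _ _) (le_max_right _ _)) hX
  have hP : ∀ p ∈ P2 (JJ δ X) X, p.Prime ∧ 2 ^ 2 ^ JJ δ X ≤ p := by
    intro p hp
    unfold P2 at hp
    exact (Finset.mem_filter.1 hp).2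
  have hn2 : n < 2 * X := by
    unfold SI at hn
    exact (Finset.mem_Ico.1 (Finset.mem_filter.1 hn).1).2
  have hXr : (16 : ℝ) ≤ X := by exact_mod_cast hX16
  have haX : (a : ℝ) ≤ X := haΛ.trans (hX₃ X hX3)
  have hcard : ((P2 (JJ δ X) X).filter (fun p => p ∣ n + a)).card ≤ ⌊4 / δ⌋₊ := by
    apply few_primes hδ (X := X) (by omega) (z := 2 ^ 2 ^ JJ δ X) hP
    · have := (hX₂ X hX2).2.1
      push_cast
      exact this
    · omega
    · have h5 : ((n + a : ℕ) : ℝ) ≤ 3 * X := by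
        push_cast
        have : (n : ℝ) < 2 * X := by exact_mod_cast hn2
        linarith
      refine h5.trans ?_
      rw [Real.rpow_two]
      nlinarith
  have h6 := hX₁ X hX1
  rw [Nat.cast_one] at h6
  have h7 : (0 : ℝ) ≤ ∏ p ∈ P2 (JJ δ X) X, (1 + (1 : ℝ) / ((p : ℝ) - 1)) := by
    refine Finset.prod_nonneg fun p hp => ?_
    have h1 : (1 : ℝ) < p := by exact_mod_cast (hP p hp).1.one_lt
    have h2 : (0 : ℝ) < (p : ℝ) - 1 := by linarith
    positivity
  refine (fs_le (fun p hp => (hP p hp).1) hS a n).trans ?_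
  refine mul_le_mul ?_ h6 h7 (by positivity)
  exact pow_le_pow_right₀ (by norm_num) hcard

end Pool.Agent.W762.HRPt
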