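import Pool.Agent.W982.TA.Grid

/-!
# Min-max area triangulations: soundness of the family checks
-/

set_option autoImplicit false

namespace Pool.Agent.W982.TA

/-! ### cells and entries -/

theorem f1_cell {t : ℕ} {P : List ℕ} (hP : patOK t P = true) {x y : ℕ}
    (h : missP P ((x : ℤ), (y : ℤ)) = true) :
    x < 64 ∧ y < 62 ∧ x + 64 * y ∈ cellCodes P := by
  unfold patOK at hP
  simp only [Bool.and_eq_true, decide_eq_true_eq, List.all_eq_true] at hP
  obtain ⟨⟨⟨hlen, hrow⟩, _⟩, _⟩ := hP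
  unfold missP at h
  simp only [Bool.and_eq_true, decide_eq_true_eq, Int.toNat_natCast] at h
  obtain ⟨_, hb⟩ := h
  have hy : y < P.length := by
    by_contra hc
    rw [List.getD_eq_default _ _ (by omega)] at hb
    simp at hb
  have hg : P.getD y 0 = P[y] := List.getD_eq_getElem _ _ hy
  rw [hg] at hb
  have hr := hrow _ (List.getElem_mem hy)
  have hx : x < 64 := by
    by_contra hc
    have h1 : P[y] < 2 ^ x := lt_of_lt_of_le hr (Nat.pow_le_pow_right (by norm_num) (by omega))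
    rw [Nat.testBit_lt_two_pow h1] at hb
    exact absurd hb (by simp)
  refine ⟨hx, by omega, ?_⟩
  unfold cellCodes
  rw [List.mem_flatMap]
  refine ⟨(P[y], y), ?_, ?_⟩
  · rw [List.mk_mem_zipIdx_iff_getElem?]
    exact List.getElem?_eq_getElem hy
  · simp only [List.mem_map, List.mem_filter, List.mem_range]
    exact ⟨x, ⟨hx, hb⟩, rfl⟩

theorem f1_entry {t s : ℕ} {P L : List ℕ} (hP : patOK t P = true) (hF : famOK t s P L = true)
    {x y : ℕ} (h : missP P ((x : ℤ), (y : ℤ)) = true) :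
    ∃ n ∈ L, ex n = x ∧ ey n = y ∧ n % 4096 = x + 64 * y ∧
      loc L x y = ((ea n : ℤ) - 8, (eb n : ℤ) - 8) := by
  obtain ⟨hx, hy, hc⟩ := f1_cell hP h
  unfold famOK at hF
  simp only [Bool.and_eq_true, decide_eq_true_eq] at hF
  obtain ⟨⟨⟨hmap, _⟩, _⟩, _⟩ := hF
  rw [← hmap, List.mem_map] at hc
  obtain ⟨n0, hn0, hc0⟩ := hc
  have hs : (L.find? fun n => n % 4096 == x + 64 * y).isSome := by
    rw [List.find?_isSome]
    exact ⟨n0, hn0, by simp [hc0]⟩
  obtain ⟨n, hn⟩ := Option.isSome_iff_exists.1 hs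
  have h1 := List.find?_some hn
  have h2 := List.mem_of_find?_eq_some hn
  have h3 : n % 4096 = x + 64 * y := by simpa using h1
  refine ⟨n, h2, ?_, ?_, h3, ?_⟩
  · unfold ex
    omega
  · unfold ey
    omega
  · unfold loc
    rw [hn]
    rfl

/-! ### order of the entries -/

theorem f1_sorted : ∀ (l : List ℕ) (n : ℕ), sortedN (n :: l) = true →
    ∀ m ∈ l, n % 4096 < m % 4096 := by
  intro l
  induction l with
  | nil =>
    intro n _ m hm
    simp at hm
  | cons a l ih =>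
    intro n h m hm
    simp only [sortedN, Bool.and_eq_true, decide_eq_true_eq] at h
    rcases List.mem_cons.1 hm with rfl | hm
    · exact h.1
    · exact lt_trans h.1 (ih a h.2 m hm)

theorem f1_sorted_tail {n : ℕ} {l : List ℕ} (h : sortedN (n :: l) = true) : sortedN l = true := by
  cases l with
  | nil => rfl
  | cons a l =>
    simp only [sortedN, Bool.and_eq_true, decide_eq_true_eq] at h
    exact h.2

theorem f1_from (L : List ℕ) (n : ℕ) : ∀ l : List ℕ, sortedN l = true →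
    pairsFrom L n l = true → ∀ m ∈ l, pairOK L n m = true := by
  intro l
  induction l with
  | nil =>
    intro _ _ m hm
    simp at hm
  | cons a l ih =>
    intro hs h m hm
    simp only [pairsFrom, Bool.or_eq_true, Bool.and_eq_true, Nat.blt_eq] at h
    rcases h with h | ⟨h1, h2⟩
    · have ham : a % 4096 ≤ m % 4096 := by
        rcases List.mem_cons.1 hm with rfl | hm
        · exact le_refl _
        · exact (f1_sorted l a hs m hm).le
      have hey : ey a ≤ ey m := by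
        unfold ey
        omega
      have hen : eb n < 16 := by unfold eb; omega
      have hem : eb m < 16 := by unfold eb; omega
      unfold pairOK sepN
      have : Nat.blt (py n) (qy m) = true := by
        rw [Nat.blt_eq]
        unfold py qy
        omega
      rw [this]
      simp
    · rcases List.mem_cons.1 hm with rfl | hm
      · exact h1
      · exact ih (f1_sorted_tail hs) h2 m hm

theorem f1_pw (L : List ℕ) : ∀ l : List ℕ, sortedN l = true → pairsOK2 L l = true →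
    l.Pairwise fun n m => pairOK L n m = true := by
  intro l
  induction l with
  | nil =>
    intro _ _
    exact List.Pairwise.nil
  | cons a l ih =>
    intro hs h
    simp only [pairsOK2, Bool.and_eq_true] at h
    exact List.Pairwise.cons (f1_from L a l (f1_sorted_tail hs) h.1)
      (ih (f1_sorted_tail hs) h.2)

theorem f1_pair {t s : ℕ} {P L : List ℕ} (hF : famOK t s P L = true) {n m : ℕ} (hn : n ∈ L)
    (hm : m ∈ L) (hne : n ≠ m) : pairOK L n m = true ∨ pairOK L m n = true := by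
  unfold famOK at hF
  simp only [Bool.and_eq_true, decide_eq_true_eq] at hF
  obtain ⟨⟨_, hs⟩, hp⟩ := hF
  have hpw := f1_pw L L hs hp
  rw [List.pairwise_iff_getElem] at hpw
  obtain ⟨i, hi, rfl⟩ := List.getElem_of_mem hn
  obtain ⟨j, hj, rfl⟩ := List.getElem_of_mem hm
  rcases lt_trichotomy i j with h | h | h
  · exact Or.inl (hpw i j hi hj h)
  · subst h
    exact absurd rfl hne
  · exact Or.inr (hpw j i hj hi h)

theorem f1_ent {t s : ℕ} {P L : List ℕ} (hF : famOK t s P L = true) {n : ℕ} (hn : n ∈ L) :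
    entOK t s P n = true := by
  unfold famOK at hF
  simp only [Bool.and_eq_true, decide_eq_true_eq, List.all_eq_true] at hF
  exact hF.1.1.2 n hn

/-! ### geometry -/

/-- the point with coordinates `a, b` -/
def f1_pt (a b : ℕ) : Pt := ((a : ℤ) - 8, (b : ℤ) - 8)

theorem f1_dt (a1 a2 b1 b2 c1 c2 : ℕ) : dt (f1_pt a1 a2) (f1_pt b1 b2) (f1_pt c1 c2) =
    ((dp a1 a2 b1 b2 c1 c2 : ℕ) : ℤ) - ((dn a1 a2 b1 b2 c1 c2 : ℕ) : ℤ) := by
  unfold dt f1_pt dp dn
  push_cast
  ring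

theorem f1_opp (a1 a2 b1 b2 c1 c2 d1 d2 : ℕ)
    (h : dt (f1_pt a1 a2) (f1_pt b1 b2) (f1_pt c1 c2) *
      dt (f1_pt a1 a2) (f1_pt b1 b2) (f1_pt d1 d2) < 0) :
    oppN a1 a2 b1 b2 c1 c2 d1 d2 = true := by
  rw [f1_dt, f1_dt] at h
  unfold oppN
  simp only [Bool.or_eq_true, Bool.and_eq_true, Nat.blt_eq]
  rcases mul_neg_iff.1 h with ⟨h1, h2⟩ | ⟨h1, h2⟩
  · right
    omega
  · left
    omega

theorem f1_cross (a b c d : Pt) : dt c d a * b.2 - dt c d b * a.2 + dt a b c * d.2 -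
    dt a b d * c.2 = 0 ∧ dt c d a * b.1 - dt c d b * a.1 + dt a b c * d.1 -
    dt a b d * c.1 = 0 ∧ dt c d a - dt c d b + dt a b c - dt a b d = 0 := by
  unfold dt
  refine ⟨?_, ?_, ?_⟩ <;> ring

theorem f1_num (A B C D a b c d m : ℤ) (h1 : A * b - B * a + C * d - D * c = 0)
    (h2 : A - B + C - D = 0) (hAB : A * B < 0) (hCD : C * D < 0) (ha : a ≤ m) (hb : b ≤ m)
    (hc : m < c) (hd : m < d) : False := by
  have h3 : (A - B + C - D) * m = 0 := by rw [h2, zero_mul]
  rcases mul_neg_iff.1 hAB with ⟨hA, hB⟩ | ⟨hA, hB⟩ <;>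
    rcases mul_neg_iff.1 hCD with ⟨hC, hD⟩ | ⟨hC, hD⟩
  · omega
  · nlinarith [mul_nonneg hA.le (sub_nonneg.2 hb), mul_nonneg (neg_nonneg.2 hB.le) (sub_nonneg.2 ha),
      mul_pos (neg_pos.2 hC) (sub_pos.2 hd), mul_pos hD (sub_pos.2 hc)]
  · nlinarith [mul_nonneg (neg_nonneg.2 hA.le) (sub_nonneg.2 hb), mul_nonneg hB.le (sub_nonneg.2 ha),
      mul_pos hC (sub_pos.2 hd), mul_pos (neg_pos.2 hD) (sub_pos.2 hc)]
  · omega

theorem f1_sepy (a b c d : Pt) (m : ℤ) (ha : a.2 ≤ m) (hb : b.2 ≤ m) (hc : m < c.2)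
    (hd : m < d.2) : ¬ PCross a b c d := by
  rintro ⟨h1, h2⟩
  obtain ⟨e1, _, e3⟩ := f1_cross a b c d
  exact f1_num _ _ _ _ _ _ _ _ m e1 e3 h2 h1 ha hb hc hd

theorem f1_sepx (a b c d : Pt) (m : ℤ) (ha : a.1 ≤ m) (hb : b.1 ≤ m) (hc : m < c.1)
    (hd : m < d.1) : ¬ PCross a b c d := by
  rintro ⟨h1, h2⟩
  obtain ⟨_, e2, e3⟩ := f1_cross a b c d
  exact f1_num _ _ _ _ _ _ _ _ m e2 e3 h2 h1 ha hb hc hd

theorem f1_swap {a b c d : Pt} (h : PCross a b c d) : PCross c d a b := ⟨h.2, h.1⟩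

/-- the first endpoint -/
def f1_p (n : ℕ) : Pt := f1_pt (px n) (py n)
/-- the second endpoint -/
def f1_q (n : ℕ) : Pt := f1_pt (qx n) (qy n)

theorem f1_dt_swap (a b c : Pt) : dt a b c = -dt b a c := by
  unfold dt
  ring

theorem f1_pcross_flip {a b c d : Pt} (h : PCross a b c d) : PCross b a d c := by
  obtain ⟨h1, h2⟩ := h
  rw [f1_dt_swap a b, f1_dt_swap a b] at h1
  rw [f1_dt_swap c d, f1_dt_swap c d] at h2
  constructor
  · linarith
  · linarith

theorem f1_sepN {m n : ℕ} (hm : 8 ≤ eb m) (hn : 8 ≤ eb n) (h : sepN m n = true) :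
    (¬ PCross (f1_p m) (f1_q m) (f1_p n) (f1_q n)) ∧
      ∀ u : Pt, (u = f1_p m ∨ u = f1_q m) → (u = f1_p n ∨ u = f1_q n) → False := by
  have hm1 : qy m ≤ py m := by unfold qy py; omega
  have hn1 : qy n ≤ py n := by unfold qy py; omega
  unfold sepN at h
  simp only [Bool.or_eq_true, Nat.blt_eq] at h
  rcases h with ((h | h) | h) | h
  · constructor
    · apply f1_sepy _ _ _ _ ((py m : ℤ) - 8) <;> simp only [f1_p, f1_q, f1_pt] <;> omega
    · rintro u (rfl | rfl) (h2 | h2) <;> simp only [f1_p, f1_q, f1_pt, Prod.mk.injEq] at h2 <;> omega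
  · constructor
    · intro hc
      refine f1_sepy (f1_p n) (f1_q n) (f1_p m) (f1_q m) ((py n : ℤ) - 8) ?_ ?_ ?_ ?_ (f1_swap hc) <;>
        simp only [f1_p, f1_q, f1_pt] <;> omega
    · rintro u (rfl | rfl) (h2 | h2) <;> simp only [f1_p, f1_q, f1_pt, Prod.mk.injEq] at h2 <;> omega
  · rw [max_lt_iff, lt_min_iff, lt_min_iff] at h
    constructor
    · apply f1_sepx _ _ _ _ ((max (px m) (qx m) : ℕ) - 8 : ℤ) <;>
        simp only [f1_p, f1_q, f1_pt] <;> push_cast <;> omega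
    · rintro u (rfl | rfl) (h2 | h2) <;> simp only [f1_p, f1_q, f1_pt, Prod.mk.injEq] at h2 <;> omega
  · rw [max_lt_iff, lt_min_iff, lt_min_iff] at h
    constructor
    · intro hc
      refine f1_sepx (f1_p n) (f1_q n) (f1_p m) (f1_q m) ((max (px n) (qx n) : ℕ) - 8 : ℤ)
        ?_ ?_ ?_ ?_ (f1_swap hc) <;>
        simp only [f1_p, f1_q, f1_pt] <;> push_cast <;> omega
    · rintro u (rfl | rfl) (h2 | h2) <;> simp only [f1_p, f1_q, f1_pt, Prod.mk.injEq] at h2 <;> omega

theorem f1_crossN {m n : ℕ} (h : PCross (f1_p m) (f1_q m) (f1_p n) (f1_q n)) :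
    crossN m n = true := by
  unfold crossN
  rw [Bool.and_eq_true]
  exact ⟨f1_opp _ _ _ _ _ _ _ _ h.1, f1_opp _ _ _ _ _ _ _ _ h.2⟩

theorem f1_pairOK_cross {L : List ℕ} {m n : ℕ} (hm : 8 ≤ eb m) (hn : 8 ≤ eb n)
    (h : pairOK L m n = true) : ¬ PCross (f1_p m) (f1_q m) (f1_p n) (f1_q n) := by
  unfold pairOK at h
  rw [Bool.or_eq_true] at h
  rcases h with h | h
  · exact (f1_sepN hm hn h).1
  · intro hc
    simp only [Bool.and_eq_true, Bool.not_eq_true'] at h
    rw [f1_crossN hc] at h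
    exact absurd h.1.1.1.1 (by simp)

theorem f1_pt_inj {a b c d : ℕ} (h : f1_pt a b = f1_pt c d) : a = c ∧ b = d := by
  simp only [f1_pt, Prod.mk.injEq] at h
  omega

/-- the triangle condition for two segments with the common endpoint `u` -/
theorem f1_triN {L : List ℕ} {a1 a2 b1 b2 c1 c2 d1 d2 k : ℕ}
    (h : triN L a1 a2 b1 b2 c1 c2 d1 d2 = true) (hac : f1_pt a1 a2 = f1_pt c1 c2) (hk : k ∈ L)
    (hk2 : s(f1_p k, f1_q k) = s(f1_pt b1 b2, f1_pt d1 d2))
    (hd : |dt (f1_pt a1 a2) (f1_pt b1 b2) (f1_pt d1 d2)| = 4) : False := by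
  obtain ⟨e1, e2⟩ := f1_pt_inj hac
  have hh : hasN L b1 b2 d1 d2 = true := by
    unfold hasN
    rw [List.any_eq_true]
    refine ⟨k, hk, ?_⟩
    simp only [Bool.or_eq_true, Bool.and_eq_true, Nat.beq_eq]
    rw [Sym2.eq_iff] at hk2
    rcases hk2 with ⟨g1, g2⟩ | ⟨g1, g2⟩
    · left
      have g3 := f1_pt_inj g1
      have g4 := f1_pt_inj g2
      exact ⟨⟨⟨g3.1, g3.2⟩, g4.1⟩, g4.2⟩
    · right
      have g3 := f1_pt_inj g1
      have g4 := f1_pt_inj g2
      exact ⟨⟨⟨g3.1, g3.2⟩, g4.1⟩, g4.2⟩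
  have hd2 : dp a1 a2 b1 b2 d1 d2 = dn a1 a2 b1 b2 d1 d2 + 4 ∨
      dn a1 a2 b1 b2 d1 d2 = dp a1 a2 b1 b2 d1 d2 + 4 := by
    rw [f1_dt] at hd
    rcases abs_eq (by norm_num : (0 : ℤ) ≤ 4) |>.1 hd with hd | hd <;> omega
  unfold triN at h
  rw [Bool.not_eq_true', ← Bool.not_eq_true] at h
  apply h
  simp only [Bool.and_eq_true, Bool.or_eq_true, Nat.beq_eq]
  exact ⟨⟨⟨e1, e2⟩, hd2⟩, hh⟩

theorem f1_tri {L : List ℕ} {m n k : ℕ} (hm : 8 ≤ eb m) (hn : 8 ≤ eb n) (hk : k ∈ L)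
    (h : pairOK L m n = true) {u v w : Pt} (h1 : s(f1_p m, f1_q m) = s(u, v))
    (h2 : s(f1_p n, f1_q n) = s(u, w)) (h3 : s(f1_p k, f1_q k) = s(v, w))
    (hd : |dt u v w| = 4) : False := by
  rw [Sym2.eq_iff] at h1 h2
  unfold pairOK at h
  rw [Bool.or_eq_true] at h
  rcases h with h | h
  · apply (f1_sepN hm hn h).2 u
    · rcases h1 with ⟨g1, g2⟩ | ⟨g1, g2⟩
      · exact Or.inl g1.symm
      · exact Or.inr g2.symm
    · rcases h2 with ⟨g1, g2⟩ | ⟨g1, g2⟩
      · exact Or.inl g1.symm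
      · exact Or.inr g2.symm
  · simp only [Bool.and_eq_true] at h
    obtain ⟨⟨⟨⟨_, t1⟩, t2⟩, t3⟩, t4⟩ := h
    rcases h1 with ⟨g1, g2⟩ | ⟨g1, g2⟩ <;> rcases h2 with ⟨g3, g4⟩ | ⟨g3, g4⟩ <;>
      subst g1 <;> subst g2
    · exact f1_triN t1 g3.symm hk (by rw [h3, ← g4]; rfl) (by rw [← g4] at hd; exact hd)
    · exact f1_triN t2 g4.symm hk (by rw [h3, ← g3]; rfl) (by rw [← g3] at hd; exact hd)
    · exact f1_triN t3 g3.symm hk (by rw [h3, ← g4]; rfl) (by rw [← g4] at hd; exact hd)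
    · exact f1_triN t4 g4.symm hk (by rw [h3, ← g3]; rfl) (by rw [← g3] at hd; exact hd)

theorem f1_ends {t s : ℕ} {P L : List ℕ} (hP : patOK t P = true) (hF : famOK t s P L = true)
    {x y : ℕ} (h : missP P ((x : ℤ), (y : ℤ)) = true) :
    ∃ n ∈ L, ex n = x ∧ ey n = y ∧ n % 4096 = x + 64 * y ∧ 8 ≤ eb n ∧
      loc L x y = ((ea n : ℤ) - 8, (eb n : ℤ) - 8) ∧ en1 (loc L) x y = f1_q n ∧
      en2 (loc L) x y = f1_p n := by
  obtain ⟨n, hn, h1, h2, h3, h4⟩ := f1_entry hP hF h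
  have he := f1_ent hF hn
  unfold entOK at he
  simp only [Bool.and_eq_true, decide_eq_true_eq] at he
  have h8 : 8 ≤ eb n := he.1.1.1.1.2
  have hea : ea n < 16 := by unfold ea; omega
  have heb : eb n < 16 := by unfold eb; omega
  refine ⟨n, hn, h1, h2, h3, h8, h4, ?_, ?_⟩
  · unfold en1 f1_q f1_pt qx qy
    rw [h4, h1, h2]
    ext1 <;> simp only <;> omega
  · unfold en2 f1_p f1_pt px py
    rw [h4, h1, h2]
    ext1 <;> simp only <;> push_cast <;> ring

theorem f1_deg (a b c : Pt) (h : a = b ∨ b = c ∨ a = c) : dt a b c = 0 := by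
  unfold dt
  rcases h with rfl | rfl | rfl <;> ring

theorem f1 : TaskF1 := by
  intro t s P L hP hF
  refine ⟨?_, ?_, ?_, ?_, ?_, ?_⟩
  · intro x y h
    obtain ⟨n, hn, h1, h2, h3, h8, h4, h5, h6⟩ := f1_ends hP hF h
    have he := f1_ent hF hn
    unfold entOK at he
    simp only [Bool.and_eq_true, decide_eq_true_eq] at he
    rw [h4]
    exact he.1.1.1.1.1
  · intro x y h
    obtain ⟨n, hn, h1, h2, h3, h8, h4, h5, h6⟩ := f1_ends hP hF h
    have he := f1_ent hF hn
    unfold entOK at he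
    simp only [Bool.and_eq_true, decide_eq_true_eq, Bool.not_eq_true'] at he
    rw [h6]
    exact he.1.1.2
  · intro x y h
    obtain ⟨n, hn, h1, h2, h3, h8, h4, h5, h6⟩ := f1_ends hP hF h
    have he := f1_ent hF hn
    unfold entOK at he
    simp only [Bool.and_eq_true, decide_eq_true_eq, Bool.not_eq_true'] at he
    rw [h5]
    exact he.1.2
  · intro x y h
    obtain ⟨n, hn, h1, h2, h3, h8, h4, h5, h6⟩ := f1_ends hP hF h
    have he := f1_ent hF hn
    have hea : ea n < 16 := by unfold ea; omega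
    have heb : eb n < 16 := by unfold eb; omega
    unfold entOK at he
    simp only [Bool.and_eq_true, Bool.or_eq_true] at he
    rw [h4]
    rcases he.2 with (h7 | h7) | h7
    · left
      unfold inN at h7
      simp only [Bool.and_eq_true, decide_eq_true_eq] at h7
      unfold px py qx qy at h7
      rw [h1, h2] at h7
      unfold InBox
      simp only
      have hb : |(eb n : ℤ) - 8| = (eb n : ℤ) - 8 := abs_of_nonneg (by omega)
      rw [hb]
      rcases abs_cases ((ea n : ℤ) - 8) with ⟨g, _⟩ | ⟨g, _⟩ <;> rw [g] <;> omega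
    · right
      left
      unfold hpN at h7
      simp only [Bool.and_eq_true, Bool.or_eq_true, decide_eq_true_eq] at h7
      obtain ⟨⟨g1, g2⟩, g3⟩ := h7
      rw [h1, h2] at g1
      rw [h2] at g3
      refine ⟨g1, ?_⟩
      rw [g2, g3]
      split_ifs <;> norm_num
    · right
      right
      unfold vpN at h7
      simp only [Bool.and_eq_true, Bool.or_eq_true, decide_eq_true_eq] at h7
      obtain ⟨g1, g2⟩ := h7
      rw [h1, h2] at g1
      rw [g2]
      rcases g1 with ⟨⟨g3, g4⟩, g5⟩ | ⟨⟨g3, g4⟩, g5⟩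
      · left
        refine ⟨g3, g4, ?_⟩
        rw [g5]
        split_ifs <;> norm_num
      · right
        refine ⟨g3, g4, ?_⟩
        rw [g5]
        split_ifs <;> norm_num
  · intro x y x' y' h h' hne hc
    obtain ⟨n, hn, h1, h2, h3, h8, h4, h5, h6⟩ := f1_ends hP hF h
    obtain ⟨n', hn', h1', h2', h3', h8', h4', h5', h6'⟩ := f1_ends hP hF h'
    have hnn : n ≠ n' := by
      rintro rfl
      apply hne
      rw [← h1, ← h2, ← h1', ← h2']
    rw [h5, h6, h5', h6'] at hc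
    have hc2 := f1_pcross_flip hc
    rcases f1_pair hF hn hn' hnn with g | g
    · exact f1_pairOK_cross h8 h8' g hc2
    · exact f1_pairOK_cross h8' h8 g (f1_swap hc2)
  · intro x y x' y' x'' y'' h h' h'' a b c e1 e2 e3 hd
    obtain ⟨n, hn, _, _, _, h8, _, h5, h6⟩ := f1_ends hP hF h
    obtain ⟨n', hn', _, _, _, h8', _, h5', h6'⟩ := f1_ends hP hF h'
    obtain ⟨n'', hn'', _, _, _, h8'', _, h5'', h6''⟩ := f1_ends hP hF h''
    rw [h5, h6, Sym2.eq_swap] at e1
    rw [h5', h6', Sym2.eq_swap] at e2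
    rw [h5'', h6'', Sym2.eq_swap] at e3
    have hnn : n ≠ n' := by
      rintro rfl
      rw [e1] at e2
      have hab : b = a := by
        rw [Sym2.eq_iff] at e2
        rcases e2 with ⟨g, _⟩ | ⟨g1, g2⟩
        · exact g
        · rw [g1, ← g2]
      rw [f1_deg a b c (Or.inl hab.symm)] at hd
      norm_num at hd
    have hd1 : |dt c b a| = 4 := by
      have : dt c b a = -dt a b c := by unfold dt; ring
      rw [this, abs_neg]
      exact hd
    have hd2 : |dt c a b| = 4 := by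
      have : dt c a b = dt a b c := by unfold dt; ring
      rw [this]
      exact hd
    rcases f1_pair hF hn hn' hnn with g | g
    · exact f1_tri h8 h8' hn'' g (by rw [e1, Sym2.eq_swap]) (by rw [e2, Sym2.eq_swap])
        (by rw [e3, Sym2.eq_swap]) hd1
    · exact f1_tri h8' h8 hn'' g (by rw [e2, Sym2.eq_swap]) (by rw [e1, Sym2.eq_swap])
        e3 hd2

end Pool.Agent.W982.TA
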