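import Pool.Agent.W921.VP.DefsC

set_option autoImplicit false

/-!
Project VP, task UP2: an ultrapower substructure for a binary symbol with infinitely many classes
of twins.
-/

namespace Pool.Agent.W762.VPUp2

open FirstOrder Set Pool.Agent.W921.VP

section lem

variable {L : FirstOrder.Language.{0, 0}}

theorem sw_refl {M : Type} (x z : M) : sw x x z = z := by
  unfold sw
  split_ifs with h
  · exact h.symm
  · rfl

theorem sw_left {M : Type} (x y : M) : sw x y x = y := by
  unfold sw
  rw [if_pos rfl]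

theorem sw_right {M : Type} (x y : M) : sw x y y = x := by
  unfold sw
  by_cases h : y = x
  · rw [if_pos h, h]
  · rw [if_neg h, if_pos rfl]

theorem sw_other {M : Type} {x y z : M} (h1 : z ≠ x) (h2 : z ≠ y) : sw x y z = z := by
  unfold sw
  rw [if_neg h1, if_neg h2]

theorem tw_refl {M : Type} (S : L.Structure M) {n : ℕ} (R : L.Relations n) (x : M) :
    Tw S R x x := by
  intro s
  have : (fun i => sw x x (s i)) = s := funext fun i => sw_refl x (s i)
  rw [this]

theorem not_tw {S : L.Structure ℕ} {R : L.Relations 2} {u v : ℕ} (h : ¬ Tw S R u v) :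
    (¬ (S.RelMap R ![u, u] ↔ S.RelMap R ![v, v])) ∨
    (¬ (S.RelMap R ![u, v] ↔ S.RelMap R ![v, u])) ∨
    (∃ z, z ≠ u ∧ z ≠ v ∧ ¬ (S.RelMap R ![u, z] ↔ S.RelMap R ![v, z])) ∨
    (∃ z, z ≠ u ∧ z ≠ v ∧ ¬ (S.RelMap R ![z, u] ↔ S.RelMap R ![z, v])) := by
  by_contra hcon
  push Not at hcon
  obtain ⟨h1, h2, h3, h4⟩ := hcon
  apply h
  intro s
  have e1 : (fun i => sw u v (s i)) = ![sw u v (s 0), sw u v (s 1)] := by
    funext i
    fin_cases i <;> rfl
  have e2 : s = ![s 0, s 1] := by
    funext i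
    fin_cases i <;> rfl
  rw [e1]
  have key : ∀ a b : ℕ, S.RelMap R ![sw u v a, sw u v b] ↔ S.RelMap R ![a, b] := by
    intro a b
    by_cases hau : a = u
    · subst hau
      rw [sw_left]
      by_cases hbu : b = a
      · subst hbu
        rw [sw_left]
        exact h1.symm
      · by_cases hbv : b = v
        · subst hbv
          rw [sw_right]
          exact h2.symm
        · rw [sw_other hbu hbv]
          exact (h3 b hbu hbv).symm
    · by_cases hav : a = v
      · subst hav
        rw [sw_right]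
        by_cases hbu : b = u
        · subst hbu
          rw [sw_left]
          exact h2
        · by_cases hbv : b = a
          · subst hbv
            rw [sw_right]
            exact h1
          · rw [sw_other hbu hbv]
            exact h3 b hbu hbv
      · rw [sw_other hau hav]
        by_cases hbu : b = u
        · subst hbu
          rw [sw_left]
          exact (h4 a hau hav).symm
        · by_cases hbv : b = v
          · subst hbv
            rw [sw_right]
            exact h4 a hau hav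
          · rw [sw_other hbu hbv]
  rw [key (s 0) (s 1), ← e2]

theorem ult_iff {U : Ultrafilter ℕ} {A B : ℕ → Prop}
    (h : ∀ᶠ i in (U : Filter ℕ), ¬ (A i ↔ B i)) :
    ¬ ((∀ᶠ i in (U : Filter ℕ), A i) ↔ ∀ᶠ i in (U : Filter ℕ), B i) := by
  intro hAB
  by_cases hA : ∀ᶠ i in (U : Filter ℕ), A i
  · obtain ⟨i, h1, h2, h3⟩ := (h.and (hA.and (hAB.1 hA))).exists
    exact h1 ⟨fun _ => h3, fun _ => h2⟩
  · have hB : ¬ ∀ᶠ i in (U : Filter ℕ), B i := fun hB => hA (hAB.2 hB)
    rw [← Ultrafilter.eventually_not] at hA hB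
    obtain ⟨i, h1, h2, h3⟩ := (h.and (hA.and hB)).exists
    exact h1 ⟨fun ha => absurd ha h2, fun hb => absurd hb h3⟩

end lem

open Classical in
/-- a witness for difference in the second position -/
noncomputable def d1 {L : FirstOrder.Language.{0, 0}} (S : L.Structure ℕ) (R : L.Relations 2)
    (u v : ℕ) : ℕ :=
  if h : ∃ z, z ≠ u ∧ z ≠ v ∧ ¬ (S.RelMap R ![u, z] ↔ S.RelMap R ![v, z]) then h.choose else 0

open Classical in
/-- a witness for difference in the first position -/
noncomputable def d2 {L : FirstOrder.Language.{0, 0}} (S : L.Structure ℕ) (R : L.Relations 2)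
    (u v : ℕ) : ℕ :=
  if h : ∃ z, z ≠ u ∧ z ≠ v ∧ ¬ (S.RelMap R ![z, u] ↔ S.RelMap R ![z, v]) then h.choose else 0

theorem d1_spec {L : FirstOrder.Language.{0, 0}} {S : L.Structure ℕ} {R : L.Relations 2}
    {u v : ℕ} (h : ∃ z, z ≠ u ∧ z ≠ v ∧ ¬ (S.RelMap R ![u, z] ↔ S.RelMap R ![v, z])) :
    d1 S R u v ≠ u ∧ d1 S R u v ≠ v ∧
      ¬ (S.RelMap R ![u, d1 S R u v] ↔ S.RelMap R ![v, d1 S R u v]) := by
  unfold d1
  rw [dif_pos h]
  exact h.choose_spec

theorem d2_spec {L : FirstOrder.Language.{0, 0}} {S : L.Structure ℕ} {R : L.Relations 2}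
    {u v : ℕ} (h : ∃ z, z ≠ u ∧ z ≠ v ∧ ¬ (S.RelMap R ![z, u] ↔ S.RelMap R ![z, v])) :
    d2 S R u v ≠ u ∧ d2 S R u v ≠ v ∧
      ¬ (S.RelMap R ![d2 S R u v, u] ↔ S.RelMap R ![d2 S R u v, v]) := by
  unfold d2
  rw [dif_pos h]
  exact h.choose_spec

theorem task (hU : S_ULT) (hB : S_UPB) : S_UP2 := by
  classical
  intro L hL hrel T hT R S hS hx
  obtain ⟨x, hx⟩ := hx
  have hinj : Function.Injective x := by
    intro i j hij
    by_contra hne
    apply hx i j hne
    rw [hij]
    exact tw_refl S R (x j)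
  obtain ⟨Z, hZ⟩ := hB L hL hrel T hT S hS
  let Z' : ℕ → ℕ → ℕ → ℕ := fun l => match l with
    | 0 => d1 S R
    | 1 => d2 S R
    | (k + 2) => Z k
  have hZ' : ∀ k, ∃ l, Z' l = Z k := fun k => ⟨k + 2, rfl⟩
  obtain ⟨M, S', U, r, c, t, hcnt, hrl, hext, hc, hfun, ⟨p0, hp0c, hp0⟩, ht⟩ :=
    hU L hL hrel S Z' x hinj
  obtain ⟨hgc, hgne, hsim, hgev⟩ := ht p0 hp0c
  set g : M := t p0 with hg
  have hR2 : ∀ a b : M, S'.RelMap R ![a, b] ↔
      ∀ᶠ i in (U : Filter ℕ), S.RelMap R ![r a i, r b i] := by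
    intro a b
    rw [hrl]
    have e : ∀ i, (fun j => r (![a, b] j) i) = ![r a i, r b i] := by
      intro i
      funext j
      fin_cases j <;> rfl
    simp only [e]
  let t' : Out (range c) → Out (range c) := fun m => ⟨t m, (ht m m.2).1⟩
  have hsimr : ∀ m : M, Sim S' (range c) m m := fun m n R p => Iff.rfl
  have hsims : Sim S' (range c) g p0 := fun n R p => (hsim n R p).symm
  refine ⟨M, S', range c, t', ⟨hcnt, ⟨⟨p0, hp0c⟩⟩, ?_, ?_⟩, ?_⟩
  · intro m
    obtain ⟨h1, h2, h3, _⟩ := ht m m.2
    exact ⟨fun h => h2 (Subtype.ext_iff.1 h), h3⟩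
  · intro N S'' j hN hcov
    exact hZ Z' hZ' M S' U r c hrl hext hc hfun N S'' j hN hcov
  · -- points
    have hnt : ∀ᶠ i in (U : Filter ℕ), ¬ Tw S R (r p0 i) (r g i) := by
      filter_upwards [hgev] with i hi
      obtain ⟨h1, i', h2⟩ := hi
      rw [← h2, hp0 i, hp0 i']
      apply hx
      intro h
      apply h1
      rw [← h2, h]
    have hcases : ∀ᶠ i in (U : Filter ℕ),
        (¬ (S.RelMap R ![r p0 i, r p0 i] ↔ S.RelMap R ![r g i, r g i])) ∨
        ((¬ (S.RelMap R ![r p0 i, r g i] ↔ S.RelMap R ![r g i, r p0 i])) ∨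
        ((∃ z, z ≠ r p0 i ∧ z ≠ r g i ∧
          ¬ (S.RelMap R ![r p0 i, z] ↔ S.RelMap R ![r g i, z])) ∨
        (∃ z, z ≠ r p0 i ∧ z ≠ r g i ∧
          ¬ (S.RelMap R ![z, r p0 i] ↔ S.RelMap R ![z, r g i])))) := by
      filter_upwards [hnt] with i hi
      exact not_tw hi
    rw [Ultrafilter.eventually_or, Ultrafilter.eventually_or, Ultrafilter.eventually_or] at hcases
    have hpg : p0 ≠ g := fun h => hgne h.symm
    let P : Out (range c) := ⟨p0, hp0c⟩
    let G : Out (range c) := ⟨g, hgc⟩
    have hPG : P ≠ G := fun h => hpg (Subtype.ext_iff.1 h)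
    rcases hcases with h | h | h | h
    · -- (a)
      exfalso
      have h1 := ult_iff h
      rw [← hR2, ← hR2] at h1
      apply h1
      have h2 := hsim 2 R ![none, none]
      have e1 : (fun i => ((![none, none] : Fin 2 → Option (range c)) i).elim p0
          Subtype.val) = ![p0, p0] := by
        funext j
        fin_cases j <;> rfl
      have e2 : (fun i => ((![none, none] : Fin 2 → Option (range c)) i).elim g
          Subtype.val) = ![g, g] := by
        funext j
        fin_cases j <;> rfl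
      rw [e1, e2] at h2
      exact h2
    · -- (b)
      have h1 := ult_iff h
      rw [← hR2, ← hR2] at h1
      by_cases h2 : S'.RelMap R ![p0, g]
      · have h3 : ¬ S'.RelMap R ![g, p0] := fun h3 => h1 ⟨fun _ => h3, fun _ => h2⟩
        exact ⟨P, G, G, P, hsim, hsims, hPG, hPG.symm, h2, h3⟩
      · have h3 : S'.RelMap R ![g, p0] := by
          by_contra h3
          exact h1 ⟨fun h => absurd h h2, fun h => absurd h h3⟩
        exact ⟨G, P, P, G, hsims, hsim, hPG.symm, hPG, h3, h2⟩
    · -- (c)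
      obtain ⟨z, hz⟩ := hfun 0 p0 g
      have h5 : ∀ᶠ i in (U : Filter ℕ), r z i ≠ r p0 i ∧ r z i ≠ r g i ∧
          ¬ (S.RelMap R ![r p0 i, r z i] ↔ S.RelMap R ![r g i, r z i]) := by
        filter_upwards [h, hz] with i h6 h7
        rw [h7]
        exact d1_spec h6
      have h1 := ult_iff (h5.mono fun i hi => hi.2.2)
      rw [← hR2, ← hR2] at h1
      have hzp : z ≠ p0 := by
        rintro rfl
        obtain ⟨i, hi⟩ := h5.exists
        exact hi.1 rfl
      have hzg : z ≠ g := by
        intro hzg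
        obtain ⟨i, hi⟩ := h5.exists
        exact hi.2.1 (by rw [hzg])
      have hzc : z ∉ range c := by
        intro hzc
        apply h1
        have h2 := hsim 2 R ![none, some ⟨z, hzc⟩]
        have e1 : (fun i => ((![none, some ⟨z, hzc⟩] : Fin 2 → Option (range c)) i).elim p0
            Subtype.val) = ![p0, z] := by
          funext j
          fin_cases j <;> rfl
        have e2 : (fun i => ((![none, some ⟨z, hzc⟩] : Fin 2 → Option (range c)) i).elim g
            Subtype.val) = ![g, z] := by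
          funext j
          fin_cases j <;> rfl
        rw [e1, e2] at h2
        exact h2
      let Y : Out (range c) := ⟨z, hzc⟩
      have hPY : P ≠ Y := fun h => hzp (Subtype.ext_iff.1 h).symm
      have hGY : G ≠ Y := fun h => hzg (Subtype.ext_iff.1 h).symm
      by_cases h2 : S'.RelMap R ![p0, z]
      · have h3 : ¬ S'.RelMap R ![g, z] := fun h3 => h1 ⟨fun _ => h3, fun _ => h2⟩
        exact ⟨P, G, Y, Y, hsim, hsimr z, hPY, hGY, h2, h3⟩
      · have h3 : S'.RelMap R ![g, z] := by
          by_contra h3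
          exact h1 ⟨fun h => absurd h h2, fun h => absurd h h3⟩
        exact ⟨G, P, Y, Y, hsims, hsimr z, hGY, hPY, h3, h2⟩
    · -- (d)
      obtain ⟨z, hz⟩ := hfun 1 p0 g
      have h5 : ∀ᶠ i in (U : Filter ℕ), r z i ≠ r p0 i ∧ r z i ≠ r g i ∧
          ¬ (S.RelMap R ![r z i, r p0 i] ↔ S.RelMap R ![r z i, r g i]) := by
        filter_upwards [h, hz] with i h6 h7
        rw [h7]
        exact d2_spec h6
      have h1 := ult_iff (h5.mono fun i hi => hi.2.2)
      rw [← hR2, ← hR2] at h1
      have hzp : z ≠ p0 := by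
        rintro rfl
        obtain ⟨i, hi⟩ := h5.exists
        exact hi.1 rfl
      have hzg : z ≠ g := by
        intro hzg
        obtain ⟨i, hi⟩ := h5.exists
        exact hi.2.1 (by rw [hzg])
      have hzc : z ∉ range c := by
        intro hzc
        apply h1
        have h2 := hsim 2 R ![some ⟨z, hzc⟩, none]
        have e1 : (fun i => ((![some ⟨z, hzc⟩, none] : Fin 2 → Option (range c)) i).elim p0
            Subtype.val) = ![z, p0] := by
          funext j
          fin_cases j <;> rfl
        have e2 : (fun i => ((![some ⟨z, hzc⟩, none] : Fin 2 → Option (range c)) i).elim g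
            Subtype.val) = ![z, g] := by
          funext j
          fin_cases j <;> rfl
        rw [e1, e2] at h2
        exact h2
      let Y : Out (range c) := ⟨z, hzc⟩
      have hPY : Y ≠ P := fun h => hzp (Subtype.ext_iff.1 h)
      have hGY : Y ≠ G := fun h => hzg (Subtype.ext_iff.1 h)
      by_cases h2 : S'.RelMap R ![z, p0]
      · have h3 : ¬ S'.RelMap R ![z, g] := fun h3 => h1 ⟨fun _ => h3, fun _ => h2⟩
        exact ⟨Y, Y, P, G, hsimr z, hsim, hPY, hGY, h2, h3⟩
      · have h3 : S'.RelMap R ![z, g] := by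
          by_contra h3
          exact h1 ⟨fun h => absurd h h2, fun h => absurd h h3⟩
        exact ⟨Y, Y, G, P, hsimr z, hsims, hGY, hPY, h3, h2⟩

end Pool.Agent.W762.VPUp2
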